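import Pool.Agent.MP_1246c0_nt.H25.SpecA

/-! Existence of a frame. -/

namespace Pool.Agent.MP_1246c0_nt.H25

open NumberField IsDedekindDomain Polynomial Finset Matrix Pool.Agent.MP_db5b97_nt.H85
open Pool.Agent.MP_1246c0_nt.H12

namespace FE

theorem gal : IsGalois ℚ Om := IsAlgClosure.isGalois ℚ Om

theorem coe_sm (h : Ga) (x : OO) : ((h • x : OO) : Om) = h (x : Om) := rfl

/-- complex conjugation -/
theorem conj_ex : ∃ (ρ : Om →+* ℂ) (c : Ga), ∀ x, ρ (c x) = starRingEnd ℂ (ρ x) := by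
  have := gal
  let ρ : Om →ₐ[ℚ] ℂ := IsAlgClosed.lift
  let : Algebra Om ℂ := ρ.toRingHom.toAlgebra
  have : IsScalarTower ℚ Om ℂ := IsScalarTower.of_algebraMap_eq fun x => (ρ.commutes x).symm
  let φ : ℂ →ₐ[ℚ] ℂ := (starRingEnd ℂ).toRatAlgHom
  exact ⟨ρ.toRingHom, φ.restrictNormal' Om, fun x => φ.restrictNormal_commutes Om x⟩

theorem prim (k : ℕ) : ∃ ζ : Om, IsPrimitiveRoot ζ (2 ^ k) :=
  HasEnoughRootsOfUnity.exists_primitiveRoot Om (2 ^ k)

theorem closed_eq (x y : Om) : IsClosed {h : Ga | h x = y} := by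
  have := gal
  rw [← isOpen_compl_iff, isOpen_iff_forall_mem_open]
  intro g hg
  refine ⟨(fun h => g⁻¹ * h) ⁻¹' (MulAction.stabilizer Ga x : Set Ga), ?_, ?_, ?_⟩
  · intro h hh hy
    apply hg
    have h1 : g⁻¹ (h x) = x := hh
    have h2 : h x = y := hy
    change g x = y
    calc g x = g (g⁻¹ (h x)) := by rw [h1]
      _ = y := by rw [← AlgEquiv.mul_apply, mul_inv_cancel, AlgEquiv.one_apply, h2]
  · exact (stabilizer_isOpen_of_isIntegral x).preimage (continuous_const.mul continuous_id)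
  · simp

/-- an automorphism with prescribed action on all roots of unity of order a power of two -/
theorem pow_ex (a : ℕ) (ha : Odd a) :
    ∃ h : Ga, ∀ (k : ℕ) (ζ : Om), ζ ^ 2 ^ k = 1 → h ζ * ζ ^ a = 1 := by
  have := gal
  let C : ℕ → Set Ga := fun k => {h | ∀ ζ : Om, ζ ^ 2 ^ k = 1 → h ζ = (ζ ^ a)⁻¹}
  have hcl : ∀ k, IsClosed (C k) := by
    intro k
    have : C k = ⋂ ζ : Om, ⋂ _ : ζ ^ 2 ^ k = 1, {h : Ga | h ζ = (ζ ^ a)⁻¹} := by
      ext h
      simp [C]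
    rw [this]
    exact isClosed_iInter fun ζ => isClosed_iInter fun _ => closed_eq _ _
  have hne : ∀ k, (C k).Nonempty := by
    intro k
    obtain ⟨ζ, hζ⟩ := prim k
    have hc : a.Coprime (2 ^ k) := (Nat.coprime_two_right.mpr ha).pow_right k
    have h2 := (hζ.pow_of_coprime a hc).inv
    have hp : 0 < 2 ^ k := by positivity
    have h3 : aeval (ζ ^ a)⁻¹ (minpoly ℚ ζ) = 0 := by
      rw [← cyclotomic_eq_minpoly_rat hζ hp, cyclotomic_eq_minpoly_rat h2 hp]
      exact minpoly.aeval _ _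
    obtain ⟨σ, hσ⟩ := minpoly.exists_algEquiv_of_root' (Algebra.IsAlgebraic.isAlgebraic ζ) h3
    refine ⟨σ, fun ξ hξ => ?_⟩
    obtain ⟨i, -, rfl⟩ := hζ.eq_pow_of_pow_eq_one hξ
    rw [map_pow, hσ, inv_pow, ← pow_mul, ← pow_mul, mul_comm]
  have hmono : ∀ k, C (k + 1) ⊆ C k := by
    intro k h hh ζ hζ
    apply hh
    rw [pow_succ, pow_mul, hζ, one_pow]
  obtain ⟨h, hh⟩ := IsCompact.nonempty_iInter_of_sequence_nonempty_isCompact_isClosed C hmono hne
    (hcl 0).isCompact hcl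
  refine ⟨h, fun k ζ hζ => ?_⟩
  have h0 : ζ ≠ 0 := by
    rintro rfl
    simp at hζ
  rw [Set.mem_iInter.mp hh k ζ hζ, inv_mul_cancel₀ (pow_ne_zero _ h0)]

/-- the field of the roots of unity of order a power of two -/
noncomputable def E2 : IntermediateField ℚ Om :=
  IntermediateField.adjoin ℚ {ζ : Om | ∃ k : ℕ, ζ ^ 2 ^ k = 1}

/-- the layers -/
noncomputable def Ek (k : ℕ) : IntermediateField ℚ Om :=
  IntermediateField.adjoin ℚ {ζ : Om | ζ ^ 2 ^ k = 1}

theorem Ek_mono {k k' : ℕ} (h : k ≤ k') : Ek k ≤ Ek k' := by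
  apply IntermediateField.adjoin.mono
  intro ζ hζ
  obtain ⟨j, rfl⟩ := Nat.exists_eq_add_of_le h
  change ζ ^ 2 ^ (k + j) = 1
  rw [pow_add, pow_mul, show ζ ^ 2 ^ k = 1 from hζ, one_pow]

theorem mem_Ek {x : Om} (hx : x ∈ E2) : ∃ k, x ∈ Ek k := by
  unfold E2 at hx
  induction hx using IntermediateField.adjoin_induction with
  | mem ζ hζ =>
    obtain ⟨k, hk⟩ := hζ
    exact ⟨k, IntermediateField.subset_adjoin _ _ hk⟩
  | algebraMap q => exact ⟨0, IntermediateField.algebraMap_mem _ q⟩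
  | add x y _ _ hx hy =>
    obtain ⟨k, hk⟩ := hx
    obtain ⟨k', hk'⟩ := hy
    exact ⟨max k k', add_mem (Ek_mono (le_max_left _ _) hk) (Ek_mono (le_max_right _ _) hk')⟩
  | inv x _ hx =>
    obtain ⟨k, hk⟩ := hx
    exact ⟨k, inv_mem hk⟩
  | mul x y _ _ hx hy =>
    obtain ⟨k, hk⟩ := hx
    obtain ⟨k', hk'⟩ := hy
    exact ⟨max k k', mul_mem (Ek_mono (le_max_left _ _) hk) (Ek_mono (le_max_right _ _) hk')⟩

theorem Ek_le {k : ℕ} {ζ : Om} (hζ : IsPrimitiveRoot ζ (2 ^ k)) :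
    Ek k ≤ IntermediateField.adjoin ℚ {ζ} := by
  apply IntermediateField.adjoin_le_iff.mpr
  intro ξ hξ
  obtain ⟨i, -, rfl⟩ := hζ.eq_pow_of_pow_eq_one (show ξ ^ 2 ^ k = 1 from hξ)
  exact pow_mem (IntermediateField.mem_adjoin_simple_self ℚ ζ) i

theorem mem_int {k : ℕ} {ζ x : Om} (hζ : IsPrimitiveRoot ζ (2 ^ k))
    (hx : x ∈ IntermediateField.adjoin ℚ {ζ}) (hi : IsIntegral ℤ x) :
    x ∈ Algebra.adjoin ℤ {ζ} := by
  let K := IntermediateField.adjoin ℚ {ζ}
  have : IsCyclotomicExtension {2 ^ k} ℚ K := hζ.intermediateField_adjoin_isCyclotomicExtension ℚ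
  let z : K := ⟨ζ, IntermediateField.mem_adjoin_simple_self ℚ ζ⟩
  have hz : IsPrimitiveRoot z (2 ^ k) := IsPrimitiveRoot.coe_submonoidClass_iff.mp hζ
  have hi' : IsIntegral ℤ (⟨x, hx⟩ : K) :=
    (isIntegral_algHom_iff (K.val.toRingHom.toIntAlgHom) K.val.toRingHom.injective).mp hi
  obtain ⟨y, hy⟩ :=
    (IsCyclotomicExtension.Rat.isIntegralClosure_adjoin_singleton hz).isIntegral_iff.1 hi'
  have h1 : (⟨x, hx⟩ : K) ∈ Algebra.adjoin ℤ {z} := hy ▸ y.2
  have h2 := Subalgebra.mem_map.mpr ⟨_, h1, (rfl : K.val.toRingHom.toIntAlgHom _ = _)⟩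
  rw [AlgHom.map_adjoin, Set.image_singleton] at h2
  exact h2

theorem root_one {Q : Ideal OO} (hQ : Q.IsMaximal) (h2 : (2 : OO) ∈ Q) (k : ℕ) :
    ∀ z : OO, z ^ 2 ^ k = 1 → z - 1 ∈ Q := by
  induction k with
  | zero =>
    intro z hz
    simp at hz
    simp [hz]
  | succ k ih =>
    intro z hz
    have h1 : z ^ 2 - 1 ∈ Q := ih _ (by rw [← pow_mul, ← pow_succ', hz])
    have h3 : (z - 1) * (z - 1) ∈ Q := by
      have : (z - 1) * (z - 1) = z ^ 2 - 1 + 2 * (1 - z) := by ring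
      rw [this]
      exact Q.add_mem h1 (Q.mul_mem_right _ h2)
    exact (hQ.isPrime.mem_or_mem h3).elim id id

theorem two_in {Q : Ideal OO} (hQ : Q.IsMaximal) (h2 : (2 : OO) ∈ Q) (h : Ga) (x : OO)
    (hx : (x : Om) ∈ E2) : h • x - x ∈ Q := by
  obtain ⟨k, hk⟩ := mem_Ek hx
  obtain ⟨ζ, hζ⟩ := prim k
  have h1 := mem_int hζ (Ek_le hζ hk) x.isIntegral_coe
  have hp : 0 < 2 ^ k := by positivity
  let z : OO := ⟨ζ, hζ.isIntegral hp⟩
  have hz : z ^ 2 ^ k = 1 := RingOfIntegers.ext (by simpa [z] using hζ.pow_eq_one)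
  have key : ∀ y ∈ Algebra.adjoin ℤ {ζ}, ∃ w : OO, (w : Om) = y ∧ h • w - w ∈ Q := by
    intro y hy
    induction hy using Algebra.adjoin_induction with
    | mem y hy =>
      obtain rfl : y = ζ := hy
      refine ⟨z, rfl, ?_⟩
      have a1 := root_one hQ h2 k z hz
      have a2 := root_one hQ h2 k (h • z) (by rw [← smul_pow', hz, smul_one])
      simpa using Q.sub_mem a2 a1
    | algebraMap n =>
      refine ⟨(n : OO), by simp, ?_⟩
      have : h • (n : OO) = n := RingOfIntegers.ext (by rw [coe_sm]; simp)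
      rw [this, sub_self]
      exact Q.zero_mem
    | add x y _ _ hx hy =>
      obtain ⟨w, rfl, hw⟩ := hx
      obtain ⟨w', rfl, hw'⟩ := hy
      refine ⟨w + w', by simp, ?_⟩
      have : h • (w + w') - (w + w') = h • w - w + (h • w' - w') := by
        rw [smul_add]
        ring
      rw [this]
      exact Q.add_mem hw hw'
    | mul x y _ _ hx hy =>
      obtain ⟨w, rfl, hw⟩ := hx
      obtain ⟨w', rfl, hw'⟩ := hy
      refine ⟨w * w', by simp, ?_⟩
      have : h • (w * w') - w * w' = (h • w - w) * h • w' + w * (h • w' - w') := by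
        rw [smul_mul']
        ring
      rw [this]
      exact Q.add_mem (Q.mul_mem_right _ hw) (Q.mul_mem_left _ hw')
  obtain ⟨w, hw, hw'⟩ := key _ h1
  rwa [RingOfIntegers.ext hw] at hw'

theorem two_lift (hL : SLIFT) {Q : Ideal OO} (hQ : Q.IsMaximal) (h2 : (2 : OO) ∈ Q) (h : Ga) :
    ∃ h', In Q h' ∧ ∀ (k : ℕ) (ζ : Om), ζ ^ 2 ^ k = 1 → h' ζ = h ζ := by
  obtain ⟨h', a, b⟩ := hL.lift Q E2 h hQ (two_in hQ h2 h)
  exact ⟨h', a, fun k ζ hζ => b ζ (IntermediateField.subset_adjoin _ _ ⟨k, hζ⟩)⟩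

theorem quad {s : Om} {m : ℚ} (hs : s * s = (m : Om)) {x : Om}
    (hx : x ∈ IntermediateField.adjoin ℚ {s}) : ∃ a b : ℚ, x = a + b * s := by
  have hx' : x ∈ (IntermediateField.adjoin ℚ {s}).toSubalgebra := hx
  rw [IntermediateField.adjoin_simple_toSubalgebra_of_isAlgebraic
    (Algebra.IsAlgebraic.isAlgebraic s)] at hx'
  clear hx
  induction hx' using Algebra.adjoin_induction with
  | mem y hy =>
    obtain rfl : y = s := hy
    exact ⟨0, 1, by simp⟩
  | algebraMap q => exact ⟨q, 0, by simp⟩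
  | add x y _ _ hx hy =>
    obtain ⟨a, b, rfl⟩ := hx
    obtain ⟨a', b', rfl⟩ := hy
    exact ⟨a + a', b + b', by push_cast; ring⟩
  | mul x y _ _ hx hy =>
    obtain ⟨a, b, rfl⟩ := hx
    obtain ⟨a', b', rfl⟩ := hy
    exact ⟨a * a' + b * b' * m, a * b' + a' * b, by push_cast; linear_combination b * b' * hs⟩

theorem odd_ex (hL : SLIFT) {l : ℕ} (hl : l.Prime) {Q : Ideal OO} (hQ : Q.IsMaximal)
    (hm : (l : OO) ∈ Q) : ∃ g, In Q g ∧ chi l g = 1 := by
  have := gal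
  set s : Om := sqr ((l : ℤ) : Om) with hsd
  have hs : s * s = (l : Om) := by rw [hsd, sqr_mul]; simp
  have hnb : s ∉ (⊥ : IntermediateField ℚ Om) := by
    intro hb
    obtain ⟨q, hq⟩ := IntermediateField.mem_bot.mp hb
    have h1 : q * q = (l : ℚ) := by
      apply (algebraMap ℚ Om).injective
      rw [map_mul, hq, hs, map_natCast]
    have h2 : IsSquare (l : ℚ) := ⟨q, h1.symm⟩
    exact hl.not_isSquare (Rat.isSquare_natCast_iff.mp h2)
  rw [InfiniteGalois.mem_bot_iff_fixed] at hnb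
  push Not at hnb
  obtain ⟨h, hh⟩ := hnb
  have hneg : h s = -s := by
    have h1 : h s * h s = s * s := by rw [← map_mul, hs, map_natCast]
    exact (mul_self_eq_mul_self_iff.mp h1).resolve_left hh
  have hs0 : s ≠ 0 := by
    rintro h0
    rw [h0, map_zero] at hh
    exact hh rfl
  have hsi : IsIntegral ℤ s := by
    apply IsIntegral.of_pow (n := 2) two_pos
    rw [sq, hs]
    exact isIntegral_natCast l
  let S : OO := ⟨s, hsi⟩
  have hS : S ∈ Q := by
    have h1 : S * S = (l : OO) := RingOfIntegers.ext (by simpa [S] using hs)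
    exact (hQ.isPrime.mem_or_mem (h1 ▸ hm)).elim id id
  have key : ∀ x : OO, (x : Om) ∈ IntermediateField.adjoin ℚ {s} → h • x - x ∈ Q := by
    intro x hx
    obtain ⟨a, b, hab⟩ := quad (m := (l : ℚ)) (by simpa using hs) hx
    have hy : ((h • x - x : OO) : Om) = -2 * b * s := by
      have : ((h • x - x : OO) : Om) = h (x : Om) - x := by simp [coe_sm]
      rw [this, hab]
      simp only [map_add, map_mul, map_ratCast, hneg]
      ring
    have hz : (((h • x - x) * S : OO) : Om) = algebraMap ℚ Om (-2 * b * l) := by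
      have : (((h • x - x) * S : OO) : Om) = ((h • x - x : OO) : Om) * s := by simp [S]
      rw [this, hy, mul_assoc, hs]
      simp
    have hzi : IsIntegral ℤ (-2 * b * l : ℚ) := by
      rw [← isIntegral_algebraMap_iff (algebraMap ℚ Om).injective, ← hz]
      exact RingOfIntegers.isIntegral_coe _
    obtain ⟨n, hn⟩ := IsIntegrallyClosed.isIntegral_iff.mp hzi
    have hn' : (h • x - x) * S = (n : OO) := by
      apply RingOfIntegers.ext
      rw [hz, ← hn]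
      simp
    have hnQ : (n : OO) ∈ Q := hn' ▸ Q.mul_mem_left _ hS
    have hd : (l : ℤ) ∣ n := by
      by_contra hd
      obtain ⟨u, v, huv⟩ := (Nat.prime_iff_prime_int.mp hl).irreducible.coprime_iff_not_dvd.mpr hd
      apply hQ.ne_top
      rw [Ideal.eq_top_iff_one]
      have : (1 : OO) = u * l + v * n := by exact_mod_cast congrArg (Int.cast : ℤ → OO) huv.symm
      rw [this]
      exact Q.add_mem (Q.mul_mem_left _ hm) (Q.mul_mem_left _ hnQ)
    obtain ⟨n', rfl⟩ := hd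
    have h1 : S * S = (l : OO) := RingOfIntegers.ext (by simpa [S] using hs)
    have hS0 : S ≠ 0 := fun h0 => hs0 (congrArg (fun t : OO => (t : Om)) h0)
    have h2 : h • x - x = n' * S := by
      apply mul_right_cancel₀ hS0
      rw [hn', mul_assoc, h1]
      push_cast
      ring
    rw [h2]
    exact Q.mul_mem_left _ hS
  obtain ⟨g, hg, hg'⟩ := hL.lift Q _ h hQ key
  refine ⟨g, hg, ?_⟩
  unfold chi kch
  rw [if_neg]
  rw [← hsd, hg' s (IntermediateField.mem_adjoin_simple_self ℚ s)]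
  exact hh

end FE

open FE in
theorem rowFE : OfFE := by
  intro hL _
  have hQ : ∀ l : ℕ, ∃ Q : Ideal OO, l.Prime → Q.IsMaximal ∧ (l : OO) ∈ Q := by
    intro l
    by_cases hl : l.Prime
    · obtain ⟨Q, h⟩ := hL.ovrQ l hl
      exact ⟨Q, fun _ => h⟩
    · exact ⟨⊥, fun h => absurd h hl⟩
  choose Q hQ using hQ
  obtain ⟨m2, t2⟩ := hQ 2 Nat.prime_two
  have t2' : (2 : OO) ∈ Q 2 := by simpa using t2
  obtain ⟨h1, p1⟩ := pow_ex 1 odd_one
  obtain ⟨h3, p3⟩ := pow_ex 3 (by decide)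
  obtain ⟨s2, s2i, s2v⟩ := two_lift hL m2 t2' h1
  obtain ⟨r2, r2i, r2v⟩ := two_lift hL m2 t2' h3
  obtain ⟨F, hF⟩ := hL.frobQ 2 (Q 2) Nat.prime_two m2 t2
  obtain ⟨i, ii, iv⟩ := two_lift hL m2 t2' F
  obtain ⟨ρ, c, hc⟩ := conj_ex
  have hs : ∀ l : ℕ, ∃ g : Ga, (l.Prime → In (Q l) g) ∧ (Gd 0 l → chi l g = 1) ∧
      (l = 2 → g = s2) := by
    intro l
    by_cases h2 : l = 2
    · subst h2
      exact ⟨s2, fun _ => s2i, fun h => absurd rfl h.2.1, fun _ => rfl⟩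
    by_cases hl : l.Prime
    · obtain ⟨g, a, b⟩ := odd_ex hL hl (hQ l hl).1 (hQ l hl).2
      exact ⟨g, fun _ => a, fun _ => b, fun h => absurd h h2⟩
    · exact ⟨1, fun h => absurd h hl, fun h => absurd h.1 hl, fun h => absurd h h2⟩
  have hr : ∀ l : ℕ, ∃ g : Ga, (Gd 0 l → Fb (Q l) l g) ∧ (l = 2 → g = r2) := by
    intro l
    by_cases h2 : l = 2
    · subst h2
      exact ⟨r2, fun h => absurd rfl h.2.1, fun _ => rfl⟩
    by_cases hl : l.Prime
    · obtain ⟨g, a⟩ := hL.frobQ l (Q l) hl (hQ l hl).1 (hQ l hl).2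
      exact ⟨g, fun _ => a, fun h => absurd h h2⟩
    · exact ⟨1, fun h => absurd h.1 hl, fun h => absurd h h2⟩
  choose sg g1 g2 g3 using hs
  choose fr f1 f2 using hr
  have ii' : In (Q 2) i⁻¹ := ((hL.grp _ m2).2.2.2.2.2.1 i i ii ii).2
  refine ⟨⟨Q, sg, fr, i⁻¹ * F, c, ρ, hQ, g1, g2, f1, ?_, ?_, ?_, hc⟩⟩
  · rw [f2 2 rfl]
    exact r2i
  · intro x
    have := (Q 2).add_mem (ii' (F • x)) (hF x)
    rw [mul_smul]
    simpa using this
  · intro k ζ hζ
    rw [g3 2 rfl, f2 2 rfl, s2v k ζ hζ, r2v k ζ hζ]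
    refine ⟨by simpa using p1 k ζ hζ, p3 k ζ hζ, ?_⟩
    rw [AlgEquiv.mul_apply, ← iv k ζ hζ, ← AlgEquiv.mul_apply, inv_mul_cancel, AlgEquiv.one_apply]

end Pool.Agent.MP_1246c0_nt.H25
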